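import Mathlib

namespace Pool.Agent.Results.MP_c68965_al.ThreeMaximal

/-- There are `k` pairwise inconjugate maximal subgroups of `G` whose intersection is the Frattini
subgroup. -/
def InconjFamily (G : Type) [Group G] (k : ℕ) : Prop :=
  ∃ M : Fin k → Subgroup G, (∀ i, IsCoatom (M i)) ∧
    (∀ i j, i ≠ j → ∀ g : G, (M i).map (MulAut.conj g).toMonoidHom ≠ M j) ∧
    ⨅ i, M i = frattini G

/-- The inconjugate intersection number: the least `k ≥ 1` such that some `k` pairwise inconjugate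
maximal subgroups intersect in the Frattini subgroup, and infinity if there is no such `k`. -/
noncomputable def iotaHat (G : Type) [Group G] : ℕ∞ :=
  sInf {x : ℕ∞ | ∃ k : ℕ, 1 ≤ k ∧ InconjFamily G k ∧ x = k}

/-- The group of maps `(x, y) ↦ (u x + a, u y + b)` of the plane over `ZMod p`. -/
@[ext] structure Hom2 (p : ℕ) where
  u : (ZMod p)ˣ
  x : ZMod p
  y : ZMod p

namespace Hom2

variable {p : ℕ}

instance : Mul (Hom2 p) := ⟨fun g h => ⟨g.u * h.u, g.u * h.x + g.x, g.u * h.y + g.y⟩⟩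
instance : One (Hom2 p) := ⟨⟨1, 0, 0⟩⟩
instance : Inv (Hom2 p) := ⟨fun g => ⟨g.u⁻¹, -((g.u⁻¹ : (ZMod p)ˣ) * g.x),
  -((g.u⁻¹ : (ZMod p)ˣ) * g.y)⟩⟩

theorem mul_def (g h : Hom2 p) : g * h = ⟨g.u * h.u, g.u * h.x + g.x, g.u * h.y + g.y⟩ := rfl
theorem one_def : (1 : Hom2 p) = ⟨1, 0, 0⟩ := rfl
theorem inv_def (g : Hom2 p) : g⁻¹ = ⟨g.u⁻¹, -((g.u⁻¹ : (ZMod p)ˣ) * g.x),
  -((g.u⁻¹ : (ZMod p)ˣ) * g.y)⟩ := rfl

instance : Group (Hom2 p) := Group.ofLeftAxioms
  (by
    intro x y z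
    simp only [mul_def, Units.val_mul]
    ext
    · simp [mul_assoc]
    · simp only
      ring
    · simp only
      ring)
  (by
    intro x
    simp [mul_def, one_def])
  (by
    intro x
    simp [mul_def, one_def, inv_def])

/-- The underlying product. -/
def equivProd : Hom2 p ≃ (ZMod p)ˣ × ZMod p × ZMod p where
  toFun x := (x.u, x.x, x.y)
  invFun x := ⟨x.1, x.2.1, x.2.2⟩
  left_inv _ := rfl
  right_inv _ := rfl

instance [NeZero p] : Finite (Hom2 p) := Finite.of_equiv _ equivProd.symm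

theorem card_eq [hp : Fact p.Prime] : Nat.card (Hom2 p) = (p - 1) * (p * p) := by
  rw [Nat.card_congr equivProd, Nat.card_prod, Nat.card_prod, Nat.card_eq_fintype_card,
    Nat.card_eq_fintype_card, ZMod.card, ZMod.card_units_eq_totient, Nat.totient_prime hp.out]

/-- The projection to the group of homothety ratios. -/
def ratio : Hom2 p →* (ZMod p)ˣ where
  toFun g := g.u
  map_one' := rfl
  map_mul' _ _ := rfl

/-- The inclusion of the translations. -/
def transl : Multiplicative (ZMod p × ZMod p) →* Hom2 p where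
  toFun v := ⟨1, v.toAdd.1, v.toAdd.2⟩
  map_one' := rfl
  map_mul' v w := by
    simp [mul_def, add_comm]

theorem isSolvable : Group.IsSolvable (Hom2 p) := by
  have h1 : Group.IsSolvable (Multiplicative (ZMod p × ZMod p)) :=
    Group.isSolvable_of_comm mul_comm
  have h2 : Group.IsSolvable (ZMod p)ˣ := Group.isSolvable_of_comm mul_comm
  refine Group.isSolvable_of_ker_le_range transl ratio ?_
  intro g hg
  have hu : g.u = 1 := hg
  refine ⟨Multiplicative.ofAdd (g.x, g.y), ?_⟩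
  ext
  · rw [hu]; rfl
  · rfl
  · rfl

/-- The subgroup of the maps preserving the line `a x + b y = k`. -/
def S (a b k : ZMod p) : Subgroup (Hom2 p) where
  carrier := {g | (g.u : ZMod p) * k + a * g.x + b * g.y = k}
  one_mem' := by simp [one_def]
  mul_mem' := by
    intro g h hg hh
    simp only [Set.mem_ofPred_eq, mul_def, Units.val_mul] at hg hh ⊢
    linear_combination hg + (g.u : ZMod p) * hh
  inv_mem' := by
    intro g hg
    simp only [Set.mem_ofPred_eq, inv_def] at hg ⊢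
    have h5 : (g.u : ZMod p) * ((g.u⁻¹ : (ZMod p)ˣ) : ZMod p) = 1 := Units.mul_inv _
    linear_combination -((g.u⁻¹ : (ZMod p)ˣ) : ZMod p) * hg + k * h5

theorem mem_S {a b k : ZMod p} {g : Hom2 p} :
    g ∈ S a b k ↔ (g.u : ZMod p) * k + a * g.x + b * g.y = k := Iff.rfl

/-- The stabilizer of an affine line is a maximal subgroup. -/
theorem isCoatom_S [hp : Fact p.Prime] (a b k : ZMod p) (hab : a ≠ 0 ∨ b ≠ 0) :
    IsCoatom (S a b k) := by
  -- a vector with functional value one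
  obtain ⟨c, d, hcd⟩ : ∃ c d : ZMod p, a * c + b * d = 1 := by
    rcases hab with h | h
    · exact ⟨a⁻¹, 0, by rw [mul_inv_cancel₀ h, mul_zero, add_zero]⟩
    · exact ⟨0, b⁻¹, by rw [mul_inv_cancel₀ h, mul_zero, zero_add]⟩
  constructor
  · intro h
    have h1 : (⟨1, c, d⟩ : Hom2 p) ∈ S a b k := by rw [h]; trivial
    rw [mem_S] at h1
    simp only [Units.val_one, one_mul] at h1
    have : (1 : ZMod p) = 0 := by linear_combination h1 - hcd
    exact one_ne_zero this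
  · intro K hK
    obtain ⟨hle, g, hgK, hgS⟩ := SetLike.lt_iff_le_and_exists.1 hK
    rw [eq_top_iff]
    intro h _
    by_cases hh : h ∈ S a b k
    · exact hle hh
    rw [mem_S] at hgS hh
    set s : ZMod p := (g.u : ZMod p) * k + a * g.x + b * g.y - k with hs
    set t : ZMod p := (h.u : ZMod p) * k + a * h.x + b * h.y - k with ht
    have hs0 : s ≠ 0 := sub_ne_zero.2 hgS
    have ht0 : t ≠ 0 := sub_ne_zero.2 hh
    -- a homothety-translation fixing `k` and taking `s + k` to `t + k`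
    let w : (ZMod p)ˣ := Units.mk0 (t / s) (div_ne_zero ht0 hs0)
    let m : Hom2 p := ⟨w, (k - w * k) * c, (k - w * k) * d⟩
    have hm : m ∈ S a b k := by
      rw [mem_S]
      show (w : ZMod p) * k + a * ((k - w * k) * c) + b * ((k - w * k) * d) = k
      linear_combination (k - w * k) * hcd
    have hws : (w : ZMod p) * s = t := by
      show t / s * s = t
      exact div_mul_cancel₀ t hs0
    have h1 : h⁻¹ * (m * g) ∈ S a b k := by
      rw [mem_S]
      simp only [mul_def, inv_def, Units.val_mul]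
      have h5 : (h.u : ZMod p) * ((h.u⁻¹ : (ZMod p)ˣ) : ZMod p) = 1 := Units.mul_inv _
      have e1 : (w : ZMod p) * ((g.u : ZMod p) * k + a * g.x + b * g.y - k) =
          (h.u : ZMod p) * k + a * h.x + b * h.y - k := hws
      show ((h.u⁻¹ : (ZMod p)ˣ) : ZMod p) * ((w : ZMod p) * (g.u : ZMod p)) * k +
        a * (((h.u⁻¹ : (ZMod p)ˣ) : ZMod p) * ((w : ZMod p) * g.x + (k - w * k) * c) +
          -(((h.u⁻¹ : (ZMod p)ˣ) : ZMod p) * h.x)) +
        b * (((h.u⁻¹ : (ZMod p)ˣ) : ZMod p) * ((w : ZMod p) * g.y + (k - w * k) * d) +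
          -(((h.u⁻¹ : (ZMod p)ˣ) : ZMod p) * h.y)) = k
      linear_combination ((h.u⁻¹ : (ZMod p)ˣ) : ZMod p) * e1 +
        ((h.u⁻¹ : (ZMod p)ˣ) : ZMod p) * (k - w * k) * hcd + k * h5
    have h2 : m * g ∈ K := K.mul_mem (hle hm) hgK
    have h3 : h = (m * g) * (h⁻¹ * (m * g))⁻¹ := by group
    rw [h3]
    exact K.mul_mem h2 (K.inv_mem (hle h1))

/-- The three maximal subgroups. -/
def M (p : ℕ) : Fin 3 → Subgroup (Hom2 p) := ![S 1 0 0, S 0 1 0, S 1 1 1]

theorem conj_transl (g : Hom2 p) (x y : ZMod p) :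
    MulAut.conj g (⟨1, x, y⟩ : Hom2 p) = ⟨1, g.u * x, g.u * y⟩ := by
  rw [MulAut.conj_apply]
  simp only [mul_def, inv_def]
  have h5 : (g.u : ZMod p) * ((g.u⁻¹ : (ZMod p)ˣ) : ZMod p) = 1 := Units.mul_inv _
  ext
  · simp
  · simp only [Units.val_mul, Units.val_one, mul_one]
    linear_combination (-g.x) * h5
  · simp only [Units.val_mul, Units.val_one, mul_one]
    linear_combination (-g.y) * h5

theorem M_inconj [hp : Fact p.Prime] (i j : Fin 3) (hij : i ≠ j) (g : Hom2 p) :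
    (M p i).map (MulAut.conj g).toMonoidHom ≠ M p j := by
  have hu : (g.u : ZMod p) ≠ 0 := g.u.ne_zero
  have key : ∀ (A B : Subgroup (Hom2 p)) (x y : ZMod p),
      A.map (MulAut.conj g).toMonoidHom = B → (⟨1, x, y⟩ : Hom2 p) ∈ A →
      (⟨1, g.u * x, g.u * y⟩ : Hom2 p) ∈ B := by
    intro A B x y h hA
    rw [← h, ← conj_transl]
    exact Subgroup.mem_map_of_mem _ hA
  intro h
  have hcase : (∃ x y : ZMod p, (⟨1, x, y⟩ : Hom2 p) ∈ M p i ∧
      (⟨1, g.u * x, g.u * y⟩ : Hom2 p) ∉ M p j) := by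
    fin_cases i <;> fin_cases j
    · exact absurd rfl hij
    · refine ⟨0, 1, ?_, ?_⟩
      · show (⟨1, 0, 1⟩ : Hom2 p) ∈ S 1 0 0
        rw [mem_S]; simp
      · show (⟨1, g.u * 0, g.u * 1⟩ : Hom2 p) ∉ S 0 1 0
        rw [mem_S]; simpa using hu
    · refine ⟨0, 1, ?_, ?_⟩
      · show (⟨1, 0, 1⟩ : Hom2 p) ∈ S 1 0 0
        rw [mem_S]; simp
      · show (⟨1, g.u * 0, g.u * 1⟩ : Hom2 p) ∉ S 1 1 1
        rw [mem_S]; simpa using hu
    · refine ⟨1, 0, ?_, ?_⟩
      · show (⟨1, 1, 0⟩ : Hom2 p) ∈ S 0 1 0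
        rw [mem_S]; simp
      · show (⟨1, g.u * 1, g.u * 0⟩ : Hom2 p) ∉ S 1 0 0
        rw [mem_S]; simpa using hu
    · exact absurd rfl hij
    · refine ⟨1, 0, ?_, ?_⟩
      · show (⟨1, 1, 0⟩ : Hom2 p) ∈ S 0 1 0
        rw [mem_S]; simp
      · show (⟨1, g.u * 1, g.u * 0⟩ : Hom2 p) ∉ S 1 1 1
        rw [mem_S]; simpa using hu
    · refine ⟨1, -1, ?_, ?_⟩
      · show (⟨1, 1, -1⟩ : Hom2 p) ∈ S 1 1 1
        rw [mem_S]; simp
      · show (⟨1, g.u * 1, g.u * -1⟩ : Hom2 p) ∉ S 1 0 0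
        rw [mem_S]; simpa using hu
    · refine ⟨1, -1, ?_, ?_⟩
      · show (⟨1, 1, -1⟩ : Hom2 p) ∈ S 1 1 1
        rw [mem_S]; simp
      · show (⟨1, g.u * 1, g.u * -1⟩ : Hom2 p) ∉ S 0 1 0
        rw [mem_S]; simpa using hu
    · exact absurd rfl hij
  obtain ⟨x, y, h1, h2⟩ := hcase
  exact h2 (key _ _ x y h h1)

theorem M_coatom [hp : Fact p.Prime] (i : Fin 3) : IsCoatom (M p i) := by
  fin_cases i
  · exact isCoatom_S 1 0 0 (Or.inl one_ne_zero)
  · exact isCoatom_S 0 1 0 (Or.inr one_ne_zero)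
  · exact isCoatom_S 1 1 1 (Or.inl one_ne_zero)

theorem iInf_M : ⨅ i, M p i = ⊥ := by
  rw [eq_bot_iff]
  intro g hg
  rw [Subgroup.mem_iInf] at hg
  have h0 : g ∈ S (1 : ZMod p) 0 0 := hg 0
  have h1 : g ∈ S (0 : ZMod p) 1 0 := hg 1
  have h2 : g ∈ S (1 : ZMod p) 1 1 := hg 2
  rw [mem_S] at h0 h1 h2
  have hx : g.x = 0 := by linear_combination h0
  have hy : g.y = 0 := by linear_combination h1
  have hu : (g.u : ZMod p) = 1 := by linear_combination h2 - hx - hy
  rw [Subgroup.mem_bot]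
  ext
  · rw [hu]; rfl
  · rw [hx]; rfl
  · rw [hy]; rfl

theorem frattini_eq [hp : Fact p.Prime] : frattini (Hom2 p) = ⊥ := by
  rw [eq_bot_iff, ← iInf_M]
  exact le_iInf fun i => frattini_le_coatom (M_coatom i)

theorem family [hp : Fact p.Prime] : InconjFamily (Hom2 p) 3 :=
  ⟨M p, M_coatom, M_inconj, by rw [iInf_M, frattini_eq]⟩

end Hom2

/-- The number of primes dividing the order of a finite solvable group whose inconjugate
intersection number is at most 3 is not bounded. -/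
theorem result : ∀ k : ℕ, ∃ (G : Type) (_ : Group G) (_ : Finite G),
    Nontrivial G ∧ Group.IsSolvable G ∧ iotaHat G ≤ 3 ∧
      k ≤ (Nat.card G).primeFactors.card := by
  intro k
  obtain ⟨s, hs, hcard⟩ := Nat.infinite_setOfPred_prime.exists_subset_card_eq k
  have hprime : ∀ q ∈ s, q.Prime := fun q hq => hs hq
  have hn0 : ∏ q ∈ s, q ≠ 0 := Finset.prod_ne_zero_iff.2 fun q hq => (hprime q hq).ne_zero
  obtain ⟨p, hp, -, hmod⟩ := Nat.exists_prime_gt_modEq_one (k := ∏ q ∈ s, q) 1 hn0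
  have : Fact p.Prime := ⟨hp⟩
  have hdvd : (∏ q ∈ s, q) ∣ p - 1 := (Nat.modEq_iff_dvd' hp.one_lt.le).1 hmod.symm
  refine ⟨Hom2 p, inferInstance, inferInstance, ?_, Hom2.isSolvable, ?_, ?_⟩
  · refine ⟨⟨1, 0, 0⟩, ⟨1, 1, 0⟩, ?_⟩
    intro h
    exact zero_ne_one (congrArg Hom2.x h)
  · apply sInf_le
    exact ⟨3, by norm_num, Hom2.family, rfl⟩
  · have hc0 : Nat.card (Hom2 p) ≠ 0 := Nat.card_pos.ne'
    have h1 : (∏ q ∈ s, q).primeFactors ⊆ (Nat.card (Hom2 p)).primeFactors := by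
      apply Nat.primeFactors_mono _ hc0
      rw [Hom2.card_eq]
      exact Dvd.dvd.mul_right hdvd _
    calc k = s.card := hcard.symm
      _ = (∏ q ∈ s, q).primeFactors.card := by rw [Nat.primeFactors_prod hprime]
      _ ≤ _ := Finset.card_le_card h1

end Pool.Agent.Results.MP_c68965_al.ThreeMaximal
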